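import Mathlib

namespace Pool.Agent.H.MP_b44203_nt

open Finset

lemma abel {R : Type} [CommRing R] (c : ℕ → R) (z : R) (T : ℕ) :
    (1 - z) * ∑ n ∈ range T, c n * z ^ n =
      c 0 + ∑ n ∈ range T, (c (n + 1) - c n) * z ^ (n + 1) - c T * z ^ T := by
  induction T with
  | zero => simp
  | succ T ih => rw [sum_range_succ, sum_range_succ, mul_add, ih]; ring

lemma upper (c : ℕ → ℝ) (hc : ∀ n, 0 ≤ c n) (T N K : ℕ) (hT : c T = 0) (s B ρ : ℝ)
    (hs : s = 1 ∨ s = -1) (hB : ∀ n ≤ N, c n ≤ B) (h0 : 0 ≤ ρ) (h1 : ρ ≤ 1)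
    (hm : ∀ n, N ≤ n → n < K → 0 ≤ s * (c (n + 1) - c n)) (z : ℂ) (hz : ‖z‖ = ρ ^ 2) :
    ‖(1 - z) * ∑ n ∈ range T, (c n : ℂ) * z ^ n‖ ≤
      (1 - ρ ^ 2) * ∑ n ∈ range T, c n * (ρ ^ 2) ^ n + (2 + 4 * N) * B +
        4 * ρ ^ K * ∑ n ∈ range (T + 1), c n * ρ ^ n := by
  have e := abel c (ρ ^ 2) T
  have hB0 : 0 ≤ B := (hc 0).trans (hB 0 (Nat.zero_le _))
  have r1 : ρ ^ 2 ≤ 1 := pow_le_one₀ h0 h1
  have F0 : 0 ≤ (1 - ρ ^ 2) * ∑ n ∈ range T, c n * (ρ ^ 2) ^ n :=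
    mul_nonneg (by linarith) (sum_nonneg fun n _ => mul_nonneg (hc n) (by positivity))
  rw [abel (fun n => (c n : ℂ)) z T]
  simp only [hT, Complex.ofReal_zero, zero_mul, sub_zero] at e ⊢
  have a1 : ‖(c 0 : ℂ) + ∑ n ∈ range T, ((c (n + 1) : ℂ) - c n) * z ^ (n + 1)‖ ≤
      c 0 + ∑ n ∈ range T, |c (n + 1) - c n| * (ρ ^ 2) ^ (n + 1) := by
    refine (norm_add_le _ _).trans (add_le_add (by simp [abs_of_nonneg (hc 0)]) ?_)
    refine (norm_sum_le _ _).trans (le_of_eq (sum_congr rfl fun n _ => ?_))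
    rw [norm_mul, norm_pow, hz, ← Complex.ofReal_sub, Complex.norm_real, Real.norm_eq_abs]
  have a2 : ∀ n ∈ range T, |c (n + 1) - c n| * (ρ ^ 2) ^ (n + 1) ≤
      s * ((c (n + 1) - c n) * (ρ ^ 2) ^ (n + 1)) + (if n ∈ range N then 4 * B else 0) +
        2 * ρ ^ K * (c n * ρ ^ n + c (n + 1) * ρ ^ (n + 1)) := by
    intro n _
    have p0 : 0 ≤ (ρ ^ 2) ^ (n + 1) := by positivity
    have p1 : (ρ ^ 2) ^ (n + 1) ≤ 1 := pow_le_one₀ (by positivity) r1
    have c0 := hc n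
    have c1 := hc (n + 1)
    have g : |c (n + 1) - c n| ≤ s * (c (n + 1) - c n) + 2 * (c n + c (n + 1)) := by
      rcases hs with rfl | rfl <;> rw [abs_le] <;> constructor <;> linarith
    have g' := mul_le_mul_of_nonneg_right g p0
    have t0 : 0 ≤ 2 * ρ ^ K * (c n * ρ ^ n + c (n + 1) * ρ ^ (n + 1)) := by positivity
    split_ifs with h
    · have h' := mem_range.1 h
      have b1 := hB n (by omega)
      have b2 := hB (n + 1) (by omega)
      have : 2 * (c n + c (n + 1)) * (ρ ^ 2) ^ (n + 1) ≤ 2 * (c n + c (n + 1)) :=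
        mul_le_of_le_one_right (by positivity) p1
      linarith
    · rcases lt_or_ge n K with hK | hK
      · have := hm n (by simpa using h) hK
        have : |c (n + 1) - c n| = s * (c (n + 1) - c n) := by
          rcases hs with rfl | rfl
          · rw [one_mul] at this ⊢; exact abs_of_nonneg this
          · rw [neg_one_mul] at this ⊢; exact abs_of_nonpos (by linarith)
        rw [this]; linarith
      · have q1 : (ρ ^ 2) ^ (n + 1) ≤ ρ ^ K * ρ ^ n := by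
          rw [← pow_mul, ← pow_add]; exact pow_le_pow_of_le_one h0 h1 (by omega)
        have q2 : (ρ ^ 2) ^ (n + 1) ≤ ρ ^ K * ρ ^ (n + 1) := by
          rw [← pow_mul, ← pow_add]; exact pow_le_pow_of_le_one h0 h1 (by omega)
        have q3 := mul_le_mul_of_nonneg_left q1 c0
        have q4 := mul_le_mul_of_nonneg_left q2 c1
        linarith
  have a3 := sum_le_sum a2
  rw [sum_add_distrib, sum_add_distrib, ← mul_sum, ← mul_sum, sum_add_distrib] at a3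
  have a4 : ∑ n ∈ range T, (if n ∈ range N then 4 * B else 0) ≤ 4 * N * B := by
    rw [sum_ite_mem, sum_const, nsmul_eq_mul]
    have : ((range T ∩ range N).card : ℝ) ≤ N := by
      exact_mod_cast (card_le_card inter_subset_right).trans (card_range N).le
    nlinarith
  have a5 : ∑ n ∈ range T, c n * ρ ^ n ≤ ∑ n ∈ range (T + 1), c n * ρ ^ n := by
    rw [sum_range_succ, hT]; simp
  have a6 : ∑ n ∈ range T, c (n + 1) * ρ ^ (n + 1) ≤ ∑ n ∈ range (T + 1), c n * ρ ^ n := by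
    rw [sum_range_succ' _ T]; have := hc 0; simp only [pow_zero, mul_one]; linarith
  have a7 : s * ∑ n ∈ range T, (c (n + 1) - c n) * (ρ ^ 2) ^ (n + 1) ≤
      (1 - ρ ^ 2) * ∑ n ∈ range T, c n * (ρ ^ 2) ^ n + c 0 := by
    have := hc 0
    rcases hs with rfl | rfl <;> linarith
  have a8 := mul_le_mul_of_nonneg_left (add_le_add a5 a6) (show 0 ≤ 2 * ρ ^ K by positivity)
  have := hB 0 (Nat.zero_le _)
  linarith

lemma ratio (ω : ℂ) (hω : ‖ω‖ = 1) (t : ℝ) (h0 : 0 ≤ t) :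
    (1 + t) * (‖1 + ω‖ / 2) ≤ ‖1 + t * ω‖ := by
  have h : ω.re ^ 2 + ω.im ^ 2 = 1 := by
    have := Complex.sq_norm ω; rw [hω, Complex.normSq_apply] at this; nlinarith
  refine abs_le_of_sq_le_sq' ?_ (norm_nonneg _) |>.2
  rw [mul_pow, div_pow, Complex.sq_norm, Complex.sq_norm, Complex.normSq_apply,
    Complex.normSq_apply]
  simp only [Complex.add_re, Complex.one_re, Complex.add_im, Complex.one_im, Complex.mul_re,
    Complex.ofReal_re, Complex.ofReal_im, Complex.mul_im]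
  have : ω.re ≤ 1 := by nlinarith
  nlinarith [mul_nonneg (sq_nonneg (1 - t)) (sub_nonneg.2 this)]

lemma ratio2 (w : ℂ) (t : ℝ) (hw : ‖w‖ = t) : (1 + t) * (1 - 2 * t) ≤ ‖1 + w‖ := by
  have := norm_sub_norm_le (1 : ℂ) (-w)
  rw [norm_one, norm_neg, hw, sub_neg_eq_add] at this
  nlinarith [sq_nonneg t]

lemma roots (m : ℕ) (hm : Odd m) (h3 : 3 ≤ m) (b : ℕ) (hb : Nat.Coprime b m) :
    ∃ δ : ℝ, 0 < δ ∧ ∀ L, ∃ ω : ℂ, ω ^ m = 1 ∧ δ ≤ ‖1 - ω‖ ∧
      1 ≤ ∏ β ∈ range L, ‖1 + ω ^ b ^ β‖ := by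
  classical
  obtain ⟨U, hU⟩ : ∃ U : Finset ℂ, ∀ ω, ω ∈ U ↔ ω ^ m = 1 ∧ ω ≠ 1 :=
    ⟨(Polynomial.nthRootsFinset m (1 : ℂ)).erase 1, fun ω => by
      rw [mem_erase, Polynomial.mem_nthRootsFinset (by omega), and_comm]⟩
  have hne : U.Nonempty := by
    have := Complex.isPrimitiveRoot_exp m (by omega)
    exact ⟨_, (hU _).2 ⟨this.pow_eq_one, this.ne_one (by omega)⟩⟩
  have perm : ∀ c, Nat.Coprime c m → ∀ g : ℂ → ℂ, ∏ ω ∈ U, g (ω ^ c) = ∏ ω ∈ U, g ω := by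
    intro c hc g
    have one : ∀ x : ℂ, x ^ c = 1 → x ^ m = 1 → x = 1 := fun x h1 h2 => by
      have := pow_gcd_eq_one.2 ⟨h1, h2⟩
      rwa [hc, pow_one] at this
    have inj : Set.InjOn (fun ω : ℂ => ω ^ c) U := by
      intro x hx y hy h
      have hx' := ((hU x).1 hx).1
      have hy' := ((hU y).1 hy).1
      have y0 : y ≠ 0 := by rintro rfl; rw [zero_pow (by omega)] at hy'; simp at hy'
      have := one (x / y) (by rw [div_pow]; simp only at h; rw [h, div_self (pow_ne_zero _ y0)])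
        (by rw [div_pow, hx', hy', div_one])
      exact (div_eq_one_iff_eq y0).1 this
    have im : U.image (fun ω => ω ^ c) = U := by
      refine eq_of_subset_of_card_le ?_ (card_image_of_injOn inj).ge
      intro y hy
      obtain ⟨x, hx, rfl⟩ := mem_image.1 hy
      obtain ⟨h1, h2⟩ := (hU x).1 hx
      exact (hU _).2 ⟨by rw [← pow_mul, mul_comm, pow_mul, h1, one_pow], fun h => h2 (one x h h1)⟩
    conv_rhs => rw [← im]
    rw [prod_image inj]
  have p1 : ∏ ω ∈ U, (1 + ω) = 1 := by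
    have h := perm 2 (by simpa using hm) (fun ω => 1 - ω)
    have h0 : ∏ ω ∈ U, (1 - ω) ≠ 0 :=
      prod_ne_zero_iff.2 fun ω hω => sub_ne_zero.2 ((hU ω).1 hω).2.symm
    apply mul_left_cancel₀ h0
    rw [← prod_mul_distrib, mul_one]
    rw [← h]; exact prod_congr rfl fun ω _ => by ring
  obtain ⟨ω0, h0, hmin⟩ := exists_min_image U (fun ω => ‖1 - ω‖) hne
  refine ⟨‖1 - ω0‖, norm_pos_iff.2 (sub_ne_zero.2 ((hU _).1 h0).2.symm), fun L => ?_⟩
  by_contra hcon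
  push Not at hcon
  have e : ∏ ω ∈ U, ∏ β ∈ range L, ‖1 + ω ^ b ^ β‖ = 1 := by
    rw [prod_comm]
    refine prod_eq_one fun β _ => ?_
    rw [← norm_prod, perm _ (hb.pow_left β) (fun ω => 1 + ω), p1, norm_one]
  have lt : ∏ ω ∈ U, ∏ β ∈ range L, ‖1 + ω ^ b ^ β‖ < ∏ ω ∈ U, (1 : ℝ) := by
    refine prod_lt_prod_of_nonempty (fun ω hω => ?_)
      (fun ω hω => hcon ω ((hU ω).1 hω).1 (hmin ω hω)) hne
    by_contra hz
    have : ∏ β ∈ range L, ‖1 + ω ^ b ^ β‖ = 0 :=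
      le_antisymm (not_lt.1 hz) (prod_nonneg fun _ _ => norm_nonneg _)
    rw [prod_eq_zero hω this] at e; simp at e
  rw [e] at lt; simp at lt

lemma tail_prod (t : ℕ → ℝ) (n : ℕ) (h0 : ∀ i, 0 ≤ t i) (h : ∀ i, t i ≤ (1 / 4) ^ (i + 1)) :
    1 / 3 + 2 / 3 * (1 / 4) ^ n ≤ ∏ i ∈ range n, (1 - 2 * t i) := by
  induction n with
  | zero => norm_num
  | succ n ih =>
    rw [prod_range_succ]
    have a := h n
    have b := h0 n
    have c : ((1 : ℝ) / 4) ^ n ≤ 1 := pow_le_one₀ (by norm_num) (by norm_num)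
    have d : (0 : ℝ) < (1 / 4) ^ n := by positivity
    rw [pow_succ] at a ⊢
    have : 0 ≤ 1 - 2 * t n := by linarith
    refine le_trans ?_ (mul_le_mul_of_nonneg_right ih this)
    nlinarith

end Pool.Agent.H.MP_b44203_nt
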