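import Mathlib
import Pool.Agent.H.MP_b44203_nt.A

namespace Pool.Agent.H.MP_b44203_nt

open Finset

noncomputable def f (m b n : ℕ) : ℕ :=
  Set.ncard {S : Finset ℕ | (∀ s ∈ S, ∃ α β : ℕ, s = m ^ α * b ^ β) ∧ ∑ s ∈ S, s = n}

open Classical in
noncomputable def AK (m b K : ℕ) : Finset ℕ := (range K).filter fun s => ∃ α β : ℕ, s = m ^ α * b ^ β

lemma mem_AK {m b K s : ℕ} : s ∈ AK m b K ↔ s < K ∧ ∃ α β : ℕ, s = m ^ α * b ^ β := by
  simp [AK]

noncomputable def cK (m b K n : ℕ) : ℕ := ((AK m b K).powerset.filter fun S => ∑ s ∈ S, s = n).card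

lemma cK_eq (m b K n : ℕ) (h : n < K) : cK m b K n = f m b n := by
  rw [cK, f, ← Set.ncard_coe_finset]
  congr 1
  ext S
  simp only [coe_filter, mem_powerset, Set.mem_ofPred_eq]
  constructor
  · rintro ⟨h1, h2⟩; exact ⟨fun s hs => (mem_AK.1 (h1 hs)).2, h2⟩
  · rintro ⟨h1, h2⟩
    refine ⟨fun s hs => mem_AK.2 ⟨?_, h1 s hs⟩, h2⟩
    have := single_le_sum (f := fun s : ℕ => s) (fun _ _ => Nat.zero_le _) hs
    omega

lemma cK_zero (m b K n : ℕ) (h : ∑ s ∈ AK m b K, s < n) : cK m b K n = 0 := by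
  rw [cK, card_eq_zero, filter_eq_empty_iff]
  intro S hS
  have := sum_le_sum_of_subset (f := fun s : ℕ => s) (mem_powerset.1 hS)
  omega

lemma gen {R : Type} [CommRing R] (m b K T : ℕ) (h : ∑ s ∈ AK m b K, s < T) (z : R) :
    ∑ n ∈ range T, (cK m b K n : R) * z ^ n = ∏ a ∈ AK m b K, (1 + z ^ a) := by
  rw [prod_one_add, ← sum_fiberwise_of_maps_to (t := range T) (g := fun S => ∑ s ∈ S, s)]
  · refine sum_congr rfl fun n _ => ?_
    rw [sum_congr rfl (g := fun _ => z ^ n), sum_const, nsmul_eq_mul, cK]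
    intro S hS
    rw [prod_pow_eq_pow_sum, (mem_filter.1 hS).2]
  · intro S hS
    have := sum_le_sum_of_subset (f := fun s : ℕ => s) (mem_powerset.1 hS)
    exact mem_range.2 (by omega)

lemma F_le (m b K : ℕ) (ρ : ℝ) (h0 : 0 ≤ ρ) (h1 : ρ < 1) :
    ∏ a ∈ AK m b K, (1 + ρ ^ a) ≤ Real.exp (1 - ρ)⁻¹ := by
  refine (Real.prod_one_add_le_exp_sum _ fun a => by positivity).trans (Real.exp_le_exp.2 ?_)
  exact sum_le_hasSum _ (fun _ _ => by positivity) (hasSum_geometric_of_lt_one h0 h1)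

lemma split (m b J : ℕ) (h3 : 3 ≤ m) (hb3 : 3 ≤ b) (hb : Nat.Coprime b m) (g : ℕ → ℝ) :
    ∏ a ∈ AK m b (b ^ J), g a =
      (∏ a ∈ (AK m b (b ^ J)).filter (m ∣ ·), g a) * ∏ β ∈ range J, g (b ^ β) := by
  rw [← prod_filter_mul_prod_filter_not _ (m ∣ ·)]
  congr 1
  rw [← prod_image (s := range J) (g := fun β => b ^ β) (f := g)
    (fun x _ y _ h => Nat.pow_right_injective (by omega) h)]
  congr 1
  ext a
  simp only [mem_filter, mem_AK, mem_image, mem_range]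
  constructor
  · rintro ⟨⟨h1, α, β, rfl⟩, h2⟩
    rcases α with _ | α
    · rw [pow_zero, one_mul] at h1 ⊢
      exact ⟨β, (Nat.pow_lt_pow_iff_right (by omega)).1 h1, rfl⟩
    · exact absurd ⟨m ^ α * b ^ β, by ring⟩ h2
  · rintro ⟨β, h1, rfl⟩
    refine ⟨⟨Nat.pow_lt_pow_right (by omega) h1, 0, β, by simp⟩, fun h => ?_⟩
    have := (hb.pow_left β).symm.eq_one_of_dvd h
    omega

lemma lower (m b L I : ℕ) (h3 : 3 ≤ m) (hb3 : 3 ≤ b) (hb : Nat.Coprime b m) (ω : ℂ)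
    (hω : ω ^ m = 1) (hP : 1 ≤ ∏ β ∈ range L, ‖1 + ω ^ b ^ β‖) (r : ℝ) (h0 : 0 ≤ r)
    (hr : ∀ i, r ^ b ^ (L + i) ≤ (1 / 4) ^ (i + 1)) :
    (∏ a ∈ AK m b (b ^ (L + I)), (1 + r ^ a)) * ((1 / 2) ^ L * (1 / 3)) ≤
      ‖∏ a ∈ AK m b (b ^ (L + I)), (1 + ((r : ℂ) * ω) ^ a)‖ := by
  have n1 : ‖ω‖ = 1 := by
    have := congrArg norm hω
    rw [norm_pow, norm_one] at this
    exact (pow_eq_one_iff_of_nonneg (norm_nonneg _) (by omega)).1 this
  rw [norm_prod, split m b _ h3 hb3 hb, split m b _ h3 hb3 hb, prod_range_add, prod_range_add]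
  have e1 : ∏ a ∈ (AK m b (b ^ (L + I))).filter (m ∣ ·), ‖1 + ((r : ℂ) * ω) ^ a‖ =
      ∏ a ∈ (AK m b (b ^ (L + I))).filter (m ∣ ·), (1 + r ^ a) := by
    refine prod_congr rfl fun a ha => ?_
    obtain ⟨c, rfl⟩ := (mem_filter.1 ha).2
    rw [mul_pow, pow_mul ω, hω, one_pow, mul_one, ← Complex.ofReal_pow, ← Complex.ofReal_one,
      ← Complex.ofReal_add, Complex.norm_real, Real.norm_of_nonneg (by positivity)]
  have e2 : (∏ β ∈ range L, (1 + r ^ b ^ β)) * (1 / 2) ^ L ≤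
      ∏ β ∈ range L, ‖1 + ((r : ℂ) * ω) ^ b ^ β‖ := by
    calc _ ≤ (∏ β ∈ range L, (1 + r ^ b ^ β)) * ((∏ β ∈ range L, ‖1 + ω ^ b ^ β‖) * (1 / 2) ^ L) :=
          mul_le_mul_of_nonneg_left (le_mul_of_one_le_left (by positivity) hP)
            (prod_nonneg fun _ _ => by positivity)
      _ = ∏ β ∈ range L, (1 + r ^ b ^ β) * (‖1 + ω ^ b ^ β‖ / 2) := by
          rw [prod_mul_distrib, prod_div_distrib, prod_const, card_range, one_div, inv_pow,
            div_eq_mul_inv]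
      _ ≤ _ := prod_le_prod (fun _ _ => by positivity) fun β _ => by
          have := ratio (ω ^ b ^ β) (by rw [norm_pow, n1, one_pow]) (r ^ b ^ β) (by positivity)
          rwa [Complex.ofReal_pow, ← mul_pow] at this
  have q : ∀ i, r ^ b ^ (L + i) ≤ 1 / 4 := fun i => (hr i).trans (by
    rw [pow_succ]; exact mul_le_of_le_one_left (by norm_num) (pow_le_one₀ (by norm_num) (by norm_num)))
  have e3 : (∏ i ∈ range I, (1 + r ^ b ^ (L + i))) * (1 / 3) ≤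
      ∏ i ∈ range I, ‖1 + ((r : ℂ) * ω) ^ b ^ (L + i)‖ := by
    have t := tail_prod (fun i => r ^ b ^ (L + i)) I (fun _ => by positivity) hr
    calc _ ≤ (∏ i ∈ range I, (1 + r ^ b ^ (L + i))) * ∏ i ∈ range I, (1 - 2 * r ^ b ^ (L + i)) :=
          mul_le_mul_of_nonneg_left (le_trans (le_add_of_nonneg_right (by positivity)) t)
            (prod_nonneg fun _ _ => by positivity)
      _ = ∏ i ∈ range I, (1 + r ^ b ^ (L + i)) * (1 - 2 * r ^ b ^ (L + i)) := by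
          rw [prod_mul_distrib]
      _ ≤ _ := prod_le_prod (fun i _ => mul_nonneg (by positivity) (by linarith [q i]))
          fun i _ => ratio2 _ _ (by
            rw [norm_pow, norm_mul, n1, mul_one, Complex.norm_real, Real.norm_of_nonneg h0])
  rw [e1, mul_assoc]
  refine mul_le_mul_of_nonneg_left ?_ (prod_nonneg fun _ _ => by positivity)
  calc _ = ((∏ β ∈ range L, (1 + r ^ b ^ β)) * (1 / 2) ^ L) *
        ((∏ i ∈ range I, (1 + r ^ b ^ (L + i))) * (1 / 3)) := by ring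
    _ ≤ _ := mul_le_mul e2 e3 (mul_nonneg (prod_nonneg fun _ _ => by positivity) (by norm_num))
        (prod_nonneg fun _ _ => norm_nonneg _)

lemma F_ge (m b M K : ℕ) (h3 : 3 ≤ m) (hb3 : 3 ≤ b) (hb : Nat.Coprime b m) (r : ℝ) (h0 : 0 ≤ r)
    (hK : ∀ β < M, m * b ^ β < K) (hr : ∀ a β, β < M → a ≤ m * b ^ β → 1 / 2 ≤ r ^ a) :
    (9 / 4 : ℝ) ^ M ≤ ∏ a ∈ AK m b K, (1 + r ^ a) := by
  have i1 : Function.Injective fun β => b ^ β := Nat.pow_right_injective (by omega)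
  have i2 : Function.Injective fun β => m * b ^ β := fun x y h =>
    i1 (Nat.eq_of_mul_eq_mul_left (by omega) h)
  have dj : Disjoint ((range M).image fun β => b ^ β) ((range M).image fun β => m * b ^ β) := by
    rw [disjoint_left]
    intro a h1 h2
    obtain ⟨x, -, rfl⟩ := mem_image.1 h1
    obtain ⟨y, -, h⟩ := mem_image.1 h2
    have := (hb.pow_left x).symm.eq_one_of_dvd ⟨_, h.symm⟩
    omega
  have le : ∀ β, b ^ β ≤ m * b ^ β := fun β => Nat.le_mul_of_pos_left _ (by omega)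
  calc (9 / 4 : ℝ) ^ M = (∏ _β ∈ range M, (3 / 2 : ℝ)) * ∏ _β ∈ range M, (3 / 2 : ℝ) := by
        rw [prod_const, card_range, ← mul_pow]; norm_num
    _ ≤ (∏ β ∈ range M, (1 + r ^ b ^ β)) * ∏ β ∈ range M, (1 + r ^ (m * b ^ β)) := by
        refine mul_le_mul (prod_le_prod (fun _ _ => by norm_num) fun β hβ => ?_)
          (prod_le_prod (fun _ _ => by norm_num) fun β hβ => ?_) (by positivity)
          (prod_nonneg fun _ _ => by positivity)
        · linarith [hr _ β (mem_range.1 hβ) (le β)]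
        · linarith [hr _ β (mem_range.1 hβ) le_rfl]
    _ = ∏ a ∈ ((range M).image fun β => b ^ β) ∪ ((range M).image fun β => m * b ^ β),
          (1 + r ^ a) := by
        rw [prod_union dj, prod_image i1.injOn, prod_image i2.injOn]
    _ ≤ _ := by
        refine prod_le_prod_of_subset_of_one_le ?_ (fun _ _ => by positivity)
          fun a _ _ => le_add_of_nonneg_right (by positivity)
        intro a ha
        rcases mem_union.1 ha with h | h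
        · obtain ⟨β, hβ, rfl⟩ := mem_image.1 h
          exact mem_AK.2 ⟨lt_of_le_of_lt (le β) (hK β (mem_range.1 hβ)), 0, β, by simp⟩
        · obtain ⟨β, hβ, rfl⟩ := mem_image.1 h
          exact mem_AK.2 ⟨hK β (mem_range.1 hβ), 1, β, by simp⟩

theorem main (m b : ℕ) (hm : Odd m) (h3 : 3 ≤ m) (hb3 : 3 ≤ b) (hb : Nat.Coprime b m) (s : ℝ)
    (hs : s = 1 ∨ s = -1) (N : ℕ) : ¬ ∀ n, N ≤ n → 0 ≤ s * ((f m b (n + 1) : ℝ) - f m b n) := by
  intro H
  obtain ⟨δ, hδ, hroot⟩ := roots m hm h3 b hb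
  obtain ⟨B, hB⟩ : ∃ B : ℝ, B = ∑ n ∈ range (N + 1), (f m b n : ℝ) := ⟨_, rfl⟩
  obtain ⟨C, hC⟩ : ∃ C : ℝ, C = (2 + 4 * N) * B + 4 := ⟨_, rfl⟩
  obtain ⟨M1, hM1⟩ := pow_unbounded_of_one_lt (24 / δ) (show (1 : ℝ) < 3 / 2 by norm_num)
  obtain ⟨M2, hM2⟩ := pow_unbounded_of_one_lt (12 * C * 2 ^ (m + 1) / δ)
    (show (1 : ℝ) < 9 / 8 by norm_num)
  obtain ⟨M, hM⟩ : ∃ M, M = M1 + M2 := ⟨_, rfl⟩
  obtain ⟨L, hL⟩ : ∃ L, L = M + (m + 1) := ⟨_, rfl⟩
  obtain ⟨ω, w1, w2, w3⟩ := hroot L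
  have bL : (0 : ℝ) < (b : ℝ) ^ L := by positivity
  obtain ⟨x, hx⟩ : ∃ x : ℝ, x = 1 / (b : ℝ) ^ L := ⟨_, rfl⟩
  have x0 : 0 < x := by rw [hx]; positivity
  have x1 : (b : ℝ) ^ L * x = 1 := by rw [hx]; field_simp
  obtain ⟨ρ, hρ⟩ : ∃ ρ, ρ = Real.exp (-x) := ⟨_, rfl⟩
  have ρ0 : 0 < ρ := by rw [hρ]; positivity
  have ρ1 : ρ < 1 := by rw [hρ]; exact Real.exp_lt_one_iff.2 (by linarith)
  have rp : ∀ a : ℕ, (ρ ^ 2) ^ a = Real.exp (-(2 * a * x)) := fun a => by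
    rw [hρ, ← pow_mul, ← Real.exp_nat_mul]; congr 1; push_cast; ring
  obtain ⟨I1, hI1⟩ := exists_pow_lt_of_lt_one (show 0 < (Real.exp (1 - ρ)⁻¹)⁻¹ by positivity) ρ1
  obtain ⟨I, hI⟩ : ∃ I, I = I1 + N + 1 := ⟨_, rfl⟩
  have hK : L + I < b ^ (L + I) := Nat.lt_pow_self (by omega)
  obtain ⟨T, hT⟩ : ∃ T, T = ∑ s ∈ AK m b (b ^ (L + I)), s + 1 := ⟨_, rfl⟩
  have n1 : ‖ω‖ = 1 := by
    have := congrArg norm w1
    rw [norm_pow, norm_one] at this
    exact (pow_eq_one_iff_of_nonneg (norm_nonneg _) (by omega)).1 this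
  have up := upper (fun n => (cK m b (b ^ (L + I)) n : ℝ)) (fun _ => by positivity) T N
    (b ^ (L + I) - 1) (by simp [cK_zero m b (b ^ (L + I)) T (by omega)]) s B ρ hs
    (fun n hn => by
      rw [cK_eq _ _ _ _ (by omega), hB]
      exact single_le_sum (f := fun n => (f m b n : ℝ)) (fun _ _ => by positivity)
        (mem_range.2 (by omega))) ρ0.le ρ1.le
    (fun n h1 h2 => by rw [cK_eq _ _ _ _ (by omega), cK_eq _ _ _ _ (by omega)]; exact H n h1)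
    (((ρ ^ 2 : ℝ) : ℂ) * ω)
    (by rw [norm_mul, n1, mul_one, Complex.norm_real, Real.norm_of_nonneg (by positivity)])
  simp only [Complex.ofReal_natCast] at up
  rw [gen m b _ T (by omega), gen m b _ T (by omega), gen m b _ (T + 1) (by omega), norm_mul] at up
  have lo := lower m b L I h3 hb3 hb ω w1 w3 (ρ ^ 2) (by positivity) (fun i => by
    rw [rp]
    have a1 : i + 1 ≤ b ^ i := Nat.lt_pow_self (by omega)
    have a2 : ((i + 1 : ℕ) : ℝ) ≤ (b : ℝ) ^ i := by exact_mod_cast a1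
    have a3 : Real.exp (-2) ≤ 1 / 4 := by
      have := Real.add_one_le_exp 1
      rw [Real.exp_neg, show (2 : ℝ) = 1 + 1 by norm_num, Real.exp_add, one_div]
      exact inv_anti₀ (by norm_num) (by nlinarith)
    refine le_trans ?_ (pow_le_pow_left₀ (Real.exp_pos _).le a3 _)
    rw [← Real.exp_nat_mul, Real.exp_le_exp]
    push_cast at a2 ⊢
    rw [pow_add]
    nlinarith)
  have m4 : 4 * m ≤ b ^ (m + 1) := by
    have a1 : 3 ^ (m + 1) ≤ b ^ (m + 1) := Nat.pow_le_pow_left hb3 _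
    have a3 : m - 1 < 3 ^ (m - 1) := Nat.lt_pow_self (by norm_num)
    have a4 : 3 ^ (m + 1) = 3 ^ (m - 1) * 9 := by
      rw [show m + 1 = m - 1 + 2 by omega, pow_add]; norm_num
    omega
  have mb : ∀ β < M, 4 * (m * b ^ β) ≤ b ^ L := fun β hβ => by
    rw [hL, pow_add, ← mul_assoc, mul_comm]
    exact Nat.mul_le_mul (Nat.pow_le_pow_right (by omega) hβ.le) m4
  have ge := F_ge m b M (b ^ (L + I)) h3 hb3 hb (ρ ^ 2) (by positivity) (fun β hβ => by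
      have := mb β hβ
      have : b ^ L ≤ b ^ (L + I) := Nat.pow_le_pow_right (by omega) (by omega)
      have : 0 < b ^ L := by positivity
      omega)
    (fun a β hβ ha => by
      have a1 : ((4 * a : ℕ) : ℝ) ≤ ((b ^ L : ℕ) : ℝ) := by
        have := mb β hβ
        exact_mod_cast (by omega : 4 * a ≤ b ^ L)
      push_cast at a1
      rw [rp]
      have := Real.add_one_le_exp (-(2 * a * x))
      nlinarith)
  have fl := F_le m b (b ^ (L + I)) ρ ρ0.le ρ1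
  obtain ⟨F, hF⟩ : ∃ F, F = ∏ a ∈ AK m b (b ^ (L + I)), (1 + (ρ ^ 2) ^ a) := ⟨_, rfl⟩
  rw [← hF] at up lo ge
  have F0 : 0 < F := lt_of_lt_of_le (by positivity) ge
  have t1 : ρ ^ (b ^ (L + I) - 1) * ∏ a ∈ AK m b (b ^ (L + I)), (1 + ρ ^ a) ≤ 1 := by
    have a1 : ρ ^ (b ^ (L + I) - 1) ≤ (Real.exp (1 - ρ)⁻¹)⁻¹ :=
      (pow_le_pow_of_le_one ρ0.le ρ1.le (by omega)).trans hI1.le
    refine (mul_le_mul a1 fl (prod_nonneg fun _ _ => by positivity) (by positivity)).trans ?_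
    rw [inv_mul_cancel₀ (Real.exp_pos _).ne']
  have t2 : δ / 2 ≤ ‖1 - ((ρ ^ 2 : ℝ) : ℂ) * ω‖ := by
    have := ratio (-ω) (by rw [norm_neg, n1]) (ρ ^ 2) (by positivity)
    rw [← sub_eq_add_neg, mul_neg, ← sub_eq_add_neg] at this
    nlinarith [sq_nonneg ρ, norm_nonneg (1 - ω)]
  have t3 : 1 - ρ ^ 2 ≤ δ / 12 * (1 / 2) ^ L := by
    have a1 := rp 1
    have a2 := Real.add_one_le_exp (-(2 * ((1 : ℕ) : ℝ) * x))
    rw [pow_one] at a1
    have a3 : (3 / 2 : ℝ) ^ M1 ≤ (3 / 2) ^ L := pow_le_pow_right₀ (by norm_num) (by omega)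
    have a4 : (3 : ℝ) ^ L ≤ (b : ℝ) ^ L := pow_le_pow_left₀ (by norm_num) (by exact_mod_cast hb3) _
    have a5 : 24 ≤ δ * (3 / 2) ^ L := by
      rw [div_lt_iff₀ hδ] at hM1; nlinarith
    have a6 : δ * (3 / 2 : ℝ) ^ L * x ≤ δ * (1 / 2) ^ L := by
      rw [show (3 / 2 : ℝ) ^ L = 3 ^ L * (1 / 2) ^ L by rw [← mul_pow]; norm_num]
      have : 3 ^ L * x ≤ 1 := by nlinarith
      have h : 0 ≤ δ * (1 / 2 : ℝ) ^ L := by positivity
      nlinarith
    have a7 := mul_le_mul_of_nonneg_right a5 x0.le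
    push_cast at a1 a2
    linarith
  have t4 := mul_le_mul t2 lo (by positivity) (norm_nonneg _)
  have t5 := mul_le_mul_of_nonneg_right t3 F0.le
  have t6 : δ / 12 * (1 / 2) ^ L * F ≤ C := by rw [hC]; linarith
  have t7 : (9 / 8 : ℝ) ^ M2 ≤ (1 / 2) ^ L * F * 2 ^ (m + 1) := by
    have a1 : (9 / 8 : ℝ) ^ M2 ≤ (9 / 8) ^ M := pow_le_pow_right₀ (by norm_num) (by omega)
    have a2 : (9 / 8 : ℝ) ^ M = (1 / 2) ^ L * (9 / 4) ^ M * 2 ^ (m + 1) := by
      rw [hL, pow_add, show (9 / 8 : ℝ) = 1 / 2 * (9 / 4) by norm_num, mul_pow]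
      have : (1 / 2 : ℝ) ^ (m + 1) * 2 ^ (m + 1) = 1 := by rw [← mul_pow]; norm_num
      linear_combination (-(1 / 2 : ℝ) ^ M * (9 / 4) ^ M) * this
    rw [a2] at a1
    exact a1.trans (by gcongr)
  rw [div_lt_iff₀ hδ] at hM2
  have t8 := mul_le_mul_of_nonneg_right t6 (show (0 : ℝ) ≤ 2 ^ (m + 1) by positivity)
  have t9 := mul_le_mul_of_nonneg_right t7 hδ.le
  linarith

end Pool.Agent.H.MP_b44203_nt
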